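import Pool.Agent.W700.PS.Conc
import Pool.Agent.W347.PS.T2
import Pool.Agent.W347.PS.T2d
import Pool.Agent.W347.PS.T3

set_option autoImplicit false

namespace W700.PS
open H601R3 Filter Topology

section
variable {E : Type} [NormedAddCommGroup E] [NormedSpace ℂ E]

/-- operators with finite-dimensional range lie in the span of the rank one operators -/
lemma mem_FRk (a : E →L[ℂ] E) (ha : FiniteDimensional ℂ (LinearMap.range (a : E →ₗ[ℂ] E))) :
    a ∈ FRk E := by
  set R := LinearMap.range (a : E →ₗ[ℂ] E) with hR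
  let b := Module.finBasis ℂ R
  let a' : E →L[ℂ] R := a.codRestrict R (fun x => ⟨x, rfl⟩)
  have h : a = ∑ i, ((b.coord i).toContinuousLinearMap.comp a').smulRight (b i : E) := by
    ext x
    have h1 := b.sum_repr (a' x)
    have h2 := congrArg (Submodule.subtype R) h1
    rw [map_sum] at h2
    simp only [map_smul, Submodule.subtype_apply] at h2
    have h3 : ((a' x : R) : E) = a x := rfl
    rw [← h3, ← h2]
    simp
  rw [h]
  exact Submodule.sum_mem _ fun i _ => Submodule.subset_span ⟨_, _, rfl⟩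

lemma fin_of_mem_FRk (a : E →L[ℂ] E) (ha : a ∈ FRk E) :
    FiniteDimensional ℂ (LinearMap.range (a : E →ₗ[ℂ] E)) := by
  unfold FRk at ha
  induction ha using Submodule.span_induction with
  | mem a ha =>
    obtain ⟨f, x, rfl⟩ := ha
    have : LinearMap.range ((f.smulRight x : E →L[ℂ] E) : E →ₗ[ℂ] E) ≤ Submodule.span ℂ {x} := by
      rintro _ ⟨y, rfl⟩
      exact Submodule.mem_span_singleton.2 ⟨f y, rfl⟩
    exact Submodule.finiteDimensional_of_le this
  | zero =>
    have : LinearMap.range ((0 : E →L[ℂ] E) : E →ₗ[ℂ] E) = ⊥ := by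
      rw [LinearMap.range_eq_bot]; rfl
    rw [this]; infer_instance
  | add a b _ _ ha hb =>
    have : LinearMap.range ((a + b : E →L[ℂ] E) : E →ₗ[ℂ] E) ≤
        LinearMap.range (a : E →ₗ[ℂ] E) ⊔ LinearMap.range (b : E →ₗ[ℂ] E) := by
      rintro _ ⟨y, rfl⟩
      exact Submodule.add_mem_sup ⟨y, rfl⟩ ⟨y, rfl⟩
    exact Submodule.finiteDimensional_of_le this
  | smul r a _ ha =>
    have : LinearMap.range ((r • a : E →L[ℂ] E) : E →ₗ[ℂ] E) ≤ LinearMap.range (a : E →ₗ[ℂ] E) := by
      rintro _ ⟨y, rfl⟩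
      exact ⟨r • y, by simp⟩
    exact Submodule.finiteDimensional_of_le this

lemma FRk_eq : (FRk E : Set (E →L[ℂ] E)) =
    {a : E →L[ℂ] E | FiniteDimensional ℂ (LinearMap.range (a : E →ₗ[ℂ] E))} :=
  Set.ext fun a => ⟨fin_of_mem_FRk a, mem_FRk a⟩

end

theorem final (T1 : S_T1) : ∃ u ∈ (FRk PP).topologicalClosure,
    u ∉ Submodule.span ℂ {w | ∃ a ∈ (FRk PP).topologicalClosure,
      ∃ b ∈ (FRk PP).topologicalClosure, w = a.comp b} := by
  by_contra hcon
  push Not at hcon
  obtain ⟨C, hC, hpi⟩ := Pool.Agent.W347.PS.T3.main PP (cotEE SB) (extEE SB)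
  obtain ⟨m, M, hm, hM, hUD⟩ := T1 PP (FRk PP).topologicalClosure
    (Submodule.isClosed_topologicalClosure _) hcon
  exact Pool.Agent.W347.PS.T2d.t2d Pool.Agent.W347.PS.T2.t2a Pool.Agent.W347.PS.T2.t2b
    Pool.Agent.W347.PS.T2.t2c PP (FRk PP).topologicalClosure C hC hpi lower m M hm hM hUD

end W700.PS
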