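import Pool.Agent.W700.PS.Cons2

/-!
The concrete starting space: the `ℓ_1` sum of `ℓ_2` and of `ℓ_1` over all blocks.
-/

set_option autoImplicit false
set_option linter.unusedSectionVars false

namespace W700.PS
open H601R3 Filter Topology

abbrev Gam := Σ k : ℕ, (Fin k → Bool)
noncomputable abbrev L1 := lp (fun _ : Gam => ℂ) 1
noncomputable abbrev L2 := lp (fun _ : ℕ => ℂ) 2
abbrev VV := WithLp 1 (L2 × L1)

section gen
variable {V A B : Type} [NormedAddCommGroup V] [NormedSpace ℂ V] [NormedAddCommGroup A]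
  [NormedSpace ℂ A] [NormedAddCommGroup B] [NormedSpace ℂ B]

lemma cot_sum (f : V →ₗ[ℂ] A) (g : V →ₗ[ℂ] B) (h : ∀ v, ‖v‖ = ‖f v‖ + ‖g v‖)
    (hA : Cot (fun x : A => ‖x‖) 2) (hB : Cot (fun x : B => ‖x‖) 2) :
    Cot (fun x : V => ‖x‖) 1000 := by
  intro n v
  have h1 : Real.sqrt (∑ i, ‖v i‖ ^ 2) ≤
      Real.sqrt (∑ i, ‖f (v i)‖ ^ 2) + Real.sqrt (∑ i, ‖g (v i)‖ ^ 2) := by
    simp_rw [h]; exact sqrt_sum_add _ _
  have h2 := hA n (fun i => f (v i))
  have h3 := hB n (fun i => g (v i))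
  have h4 : (Ex fun ε => ‖lev v ε‖) = (Ex fun ε => ‖lev (fun i => f (v i)) ε‖) +
      Ex fun ε => ‖lev (fun i => g (v i)) ε‖ := by
    rw [← Ex_add]
    congr 1; funext ε
    rw [h]
    congr 2
    · exact lev_map (f.restrictScalars ℝ) v ε
    · exact lev_map (g.restrictScalars ℝ) v ε
  have h5 : 0 ≤ Ex fun ε => ‖lev v ε‖ := Ex_nonneg fun ε => norm_nonneg _
  show Real.sqrt (∑ i, ‖v i‖ ^ 2) ≤ 1000 * Ex fun ε => ‖lev v ε‖
  simp only at h2 h3
  linarith

lemma cot_hilbert {E : Type} [NormedAddCommGroup E] [InnerProductSpace ℂ E] :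
    Cot (fun x : E => ‖x‖) 2 := by
  letI : InnerProductSpace ℝ E := InnerProductSpace.complexToReal
  exact hilbert_cot (E := E)

lemma cot_l1 {Γ : Type} (e : Γ → A →ₗ[ℂ] ℂ) (h : ∀ a, HasSum (fun γ => ‖e γ a‖) ‖a‖) :
    Cot (fun x : A => ‖x‖) 2 := by
  intro n v
  classical
  have h1 : ∀ s : Finset Γ, Real.sqrt (∑ i, (∑ γ ∈ s, ‖e γ (v i)‖) ^ 2) ≤
      ∑ γ ∈ s, Real.sqrt (∑ i, ‖e γ (v i)‖ ^ 2) := by
    intro s
    induction s using Finset.induction_on with
    | empty => simp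
    | insert a s ha ih =>
      simp_rw [Finset.sum_insert ha]
      exact (sqrt_sum_add _ _).trans (by linarith)
  have h2 : ∀ γ, Real.sqrt (∑ i, ‖e γ (v i)‖ ^ 2) ≤ 2 * Ex fun ε => ‖e γ (lev v ε)‖ := by
    intro γ
    have := hilbert_cot (E := ℂ) n (fun i => e γ (v i))
    refine this.trans (le_of_eq ?_)
    congr 2; funext ε
    congr 1
    exact (lev_map ((e γ).restrictScalars ℝ) v ε).symm
  have h3 : ∀ s : Finset Γ, Real.sqrt (∑ i, (∑ γ ∈ s, ‖e γ (v i)‖) ^ 2) ≤
      2 * Ex fun ε => ‖lev v ε‖ := by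
    intro s
    refine (h1 s).trans ((Finset.sum_le_sum fun γ _ => h2 γ).trans ?_)
    rw [← Finset.mul_sum]
    refine mul_le_mul_of_nonneg_left ?_ (by norm_num)
    have : ∑ γ ∈ s, Ex (fun ε => ‖e γ (lev v ε)‖) = Ex fun ε => ∑ γ ∈ s, ‖e γ (lev v ε)‖ := by
      unfold Ex
      rw [← Finset.mul_sum, Finset.sum_comm]
    rw [this]
    refine Ex_mono fun ε => ?_
    exact sum_le_hasSum s (fun γ _ => norm_nonneg _) (h _)
  refine le_of_tendsto (f := fun s : Finset Γ => Real.sqrt (∑ i, (∑ γ ∈ s, ‖e γ (v i)‖) ^ 2))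
    (x := atTop) ?_ (Eventually.of_forall h3)
  refine (Real.continuous_sqrt.tendsto _).comp ?_
  refine tendsto_finset_sum _ fun i _ => ?_
  exact (h (v i)).pow 2

end gen

/-- evaluation on `L1` -/
noncomputable def ev (γ : Gam) : L1 →ₗ[ℂ] ℂ where
  toFun f := f γ
  map_add' _ _ := rfl
  map_smul' _ _ := rfl

lemma cotL1 : Cot (fun x : L1 => ‖x‖) 2 := by
  refine cot_l1 ev fun a => ?_
  have := lp.hasSum_norm (p := 1) (by simp) a
  simp only [ENNReal.toReal_one, Real.rpow_one] at this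
  exact this

lemma cotVV : Cot (fun x : VV => ‖x‖) 1000 :=
  cot_sum (WithLp.fstₗ 1 ℂ L2 L1) (WithLp.sndₗ 1 ℂ L2 L1) (fun v => WithLp.prod_norm_eq_of_L1 v)
    cot_hilbert cotL1

/-- block coordinates -/
noncomputable def bet (k : ℕ) : VV →ₗ[ℂ] Bk k where
  toFun v ω := (WithLp.snd v : L1) ⟨k, ω⟩
  map_add' _ _ := rfl
  map_smul' _ _ := rfl

/-- second inclusion -/
noncomputable def inr : L1 →ₗ[ℂ] VV where
  toFun g := WithLp.toLp 1 (0, g)
  map_add' a b := by rw [← WithLp.toLp_add]; simp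
  map_smul' r a := by rw [RingHom.id_apply, ← WithLp.toLp_smul]; simp

/-- first inclusion -/
noncomputable def inl : L2 →ₗ[ℂ] VV where
  toFun g := WithLp.toLp 1 (g, 0)
  map_add' a b := by rw [← WithLp.toLp_add]; simp
  map_smul' r a := by rw [RingHom.id_apply, ← WithLp.toLp_smul]; simp

lemma inl_fst (g : L2) : WithLp.fst (inl g) = g := rfl
lemma inl_snd (g : L2) : WithLp.snd (inl g) = 0 := rfl
lemma inr_fst (g : L1) : WithLp.fst (inr g) = 0 := rfl
lemma inr_snd (g : L1) : WithLp.snd (inr g) = g := rfl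

lemma norm_inl (g : L2) : ‖inl g‖ = ‖g‖ := by
  rw [WithLp.prod_norm_eq_of_L1, inl_fst, inl_snd]; simp

lemma norm_inr (g : L1) : ‖inr g‖ = ‖g‖ := by
  rw [WithLp.prod_norm_eq_of_L1, inr_fst, inr_snd]; simp

/-- block inclusion into `L1` -/
noncomputable def io (k : ℕ) : Bk k →ₗ[ℂ] L1 where
  toFun b := ∑ ω : Fin k → Bool, lp.single 1 (⟨k, ω⟩ : Gam) (b ω)
  map_add' a b := by
    rw [← Finset.sum_add_distrib]
    refine Finset.sum_congr rfl fun ω _ => ?_
    exact lp.single_add (E := fun _ : Gam => ℂ) 1 _ _ _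
  map_smul' r a := by
    rw [Finset.smul_sum]
    refine Finset.sum_congr rfl fun ω _ => ?_
    exact lp.single_smul (𝕜 := ℂ) (E := fun _ : Gam => ℂ) 1 _ r (a ω)

lemma io_apply (k : ℕ) (b : Bk k) : io k b = ∑ ω : Fin k → Bool, lp.single 1 (⟨k, ω⟩ : Gam) (b ω) :=
  rfl

lemma io_self (k : ℕ) (b : Bk k) (ω : Fin k → Bool) : (io k b : L1) ⟨k, ω⟩ = b ω := by
  rw [io_apply, lp.coeFn_sum, Finset.sum_apply, Finset.sum_eq_single ω]
  · simp
  · intro c _ hc
    rw [lp.single_apply_ne]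
    intro h
    exact hc (by simpa using h.symm)
  · intro h; exact absurd (Finset.mem_univ _) h

lemma io_ne (i k : ℕ) (h : i ≠ k) (b : Bk k) (ω : Fin i → Bool) : (io k b : L1) ⟨i, ω⟩ = 0 := by
  rw [io_apply, lp.coeFn_sum, Finset.sum_apply]
  refine Finset.sum_eq_zero fun c _ => ?_
  rw [lp.single_apply_ne]
  intro h'
  exact h (congrArg Sigma.fst h')

/-- the block as a finite set of indices -/
def blk (k : ℕ) : Finset Gam := Finset.univ.map ⟨fun ω : Fin k → Bool => (⟨k, ω⟩ : Gam), by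
  intro a b h; simpa using h⟩

lemma splitL1 (k : ℕ) (g : L1) :
    ‖g‖ = ‖g - io k (fun ω => g ⟨k, ω⟩)‖ + ∑ ω : Fin k → Bool, ‖g ⟨k, ω⟩‖ := by
  have h := lp.norm_sub_norm_compl_sub_single (p := 1) (by simp) g (blk k)
  have h1 : ∑ i ∈ blk k, lp.single 1 i (g i) = io k (fun ω => g ⟨k, ω⟩) := by
    unfold blk; rw [Finset.sum_map]; rfl
  have h2 : ∑ i ∈ blk k, ‖g i‖ = ∑ ω : Fin k → Bool, ‖g ⟨k, ω⟩‖ := by
    unfold blk; rw [Finset.sum_map]; rfl
  rw [h1] at h
  simp only [ENNReal.toReal_one, Real.rpow_one] at h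
  rw [h2] at h
  linarith

lemma splitVV (k : ℕ) (v : VV) : ‖v‖ = ‖v - inr (io k (bet k v))‖ + NB k (bet k v) := by
  rw [WithLp.prod_norm_eq_of_L1, WithLp.prod_norm_eq_of_L1, WithLp.sub_fst, WithLp.sub_snd,
    inr_fst, inr_snd, sub_zero, splitL1 k v.snd, NB_apply, add_assoc]
  rfl

/-- the generating family -/
noncomputable def gen : ℕ ⊕ Gam → VV
  | Sum.inl i => inl (lp.single 2 i (1 : ℂ))
  | Sum.inr γ => inr (lp.single 1 γ (1 : ℂ))

/-- the dense subspace -/
noncomputable def S00 : Submodule ℂ VV := Submodule.span ℂ (Set.range gen)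

lemma S00_supp (v : VV) (hv : v ∈ S00) : ∃ K, ∀ i, K ≤ i → bet i v = 0 := by
  unfold S00 at hv
  induction hv using Submodule.span_induction with
  | mem x hx =>
    obtain ⟨γ, rfl⟩ := hx
    cases γ with
    | inl i => exact ⟨0, fun j _ => rfl⟩
    | inr γ =>
      refine ⟨γ.1 + 1, fun j hj => ?_⟩
      funext ω
      show (lp.single 1 γ (1 : ℂ) : L1) ⟨j, ω⟩ = 0
      rw [lp.single_apply_ne]
      rintro rfl
      simp at hj
  | zero => exact ⟨0, fun j _ => map_zero _⟩
  | add x y _ _ hx hy =>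
    obtain ⟨K, hK⟩ := hx
    obtain ⟨L, hL⟩ := hy
    refine ⟨max K L, fun j hj => ?_⟩
    rw [map_add, hK j (le_of_max_le_left hj), hL j (le_of_max_le_right hj), add_zero]
  | smul r x _ hx =>
    obtain ⟨K, hK⟩ := hx
    exact ⟨K, fun j hj => by rw [map_smul, hK j hj, smul_zero]⟩

lemma cont_inl : Continuous inl := by
  have : LipschitzWith 1 inl := by
    refine LipschitzWith.of_dist_le_mul fun a b => ?_
    rw [dist_eq_norm, dist_eq_norm, ← map_sub, norm_inl]; simp
  exact this.continuous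

lemma cont_inr : Continuous inr := by
  have : LipschitzWith 1 inr := by
    refine LipschitzWith.of_dist_le_mul fun a b => ?_
    rw [dist_eq_norm, dist_eq_norm, ← map_sub, norm_inr]; simp
  exact this.continuous

lemma S00_dense : Dense (S00 : Set VV) := by
  intro v
  have h1 : inl v.fst ∈ S00.topologicalClosure := by
    have h := (lp.hasSum_single (p := 2) (by simp) v.fst)
    have h' : Tendsto (fun s : Finset ℕ => inl (∑ i ∈ s, lp.single 2 i (v.fst i))) atTop
        (𝓝 (inl v.fst)) := (cont_inl.tendsto _).comp h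
    refine S00.isClosed_topologicalClosure.mem_of_tendsto h' (Eventually.of_forall fun s => ?_)
    refine S00.le_topologicalClosure ?_
    rw [map_sum]
    refine Submodule.sum_mem _ fun i _ => ?_
    have : lp.single 2 i (v.fst i) = v.fst i • (lp.single 2 i (1 : ℂ) : L2) := by
      rw [← lp.single_smul]; simp
    rw [this, map_smul]
    exact Submodule.smul_mem _ _ (Submodule.subset_span ⟨Sum.inl i, rfl⟩)
  have h2 : inr v.snd ∈ S00.topologicalClosure := by
    have h := (lp.hasSum_single (p := 1) (by simp) v.snd)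
    have h' : Tendsto (fun s : Finset Gam => inr (∑ i ∈ s, lp.single 1 i (v.snd i))) atTop
        (𝓝 (inr v.snd)) := (cont_inr.tendsto _).comp h
    refine S00.isClosed_topologicalClosure.mem_of_tendsto h' (Eventually.of_forall fun s => ?_)
    refine S00.le_topologicalClosure ?_
    rw [map_sum]
    refine Submodule.sum_mem _ fun i _ => ?_
    have : lp.single 1 i (v.snd i) = v.snd i • (lp.single 1 i (1 : ℂ) : L1) := by
      rw [← lp.single_smul]; simp
    rw [this, map_smul]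
    exact Submodule.smul_mem _ _ (Submodule.subset_span ⟨Sum.inr i, rfl⟩)
  have h3 : v = inl v.fst + inr v.snd := by
    have e1 : (inl v.fst + inr v.snd).fst = v.fst := by
      rw [WithLp.add_fst, inl_fst, inr_fst, add_zero]
    have e2 : (inl v.fst + inr v.snd).snd = v.snd := by
      rw [WithLp.add_snd, inl_snd, inr_snd, zero_add]
    apply WithLp.ofLp_injective
    exact Prod.ext e1.symm e2.symm
  rw [h3]
  exact S00.topologicalClosure.add_mem h1 h2

lemma exists_D : ∃ D : ℕ → VV, DenseRange D ∧ ∀ m, D m ∈ S00 := by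
  have hsep : TopologicalSpace.IsSeparable (S00 : Set VV) := by
    exact TopologicalSpace.IsSeparable.span (Set.countable_range gen).isSeparable
  obtain ⟨t, ht1, ht2, ht3⟩ := hsep.exists_countable_dense_subset
  have hne : t.Nonempty := by
    by_contra h
    rw [Set.not_nonempty_iff_eq_empty] at h
    rw [h] at ht3
    have := ht3 S00.zero_mem
    simp at this
  obtain ⟨D, hD⟩ := ht2.exists_eq_range hne
  refine ⟨D, ?_, fun m => ht1 (hD ▸ ⟨m, rfl⟩)⟩
  have : Dense t := by
    intro v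
    have h1 := S00_dense v
    exact closure_minimal ht3 isClosed_closure h1
  rw [hD] at this
  exact this

/-- The concrete block structure. -/
noncomputable def SB : Blocks VV where
  β := bet
  ι k := inr ∘ₗ io k
  βι k b := by
    funext ω
    exact io_self k b ω
  βι' i k b h := by
    funext ω
    exact io_ne i k h b ω
  split k v := splitVV k v
  cot := cotVV
  D := exists_D.choose
  dense := exists_D.choose_spec.1
  supp m := S00_supp _ (exists_D.choose_spec.2 m)

/-- The space. -/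
abbrev PP := EE SB

/-- the isometric embedding of `ℓ_2` -/
noncomputable def psi : L2 →ₗᵢ[ℂ] PP where
  toLinearMap := qm SB ∘ₗ inl
  norm_map' h := by
    show ‖(Submodule.Quotient.mk (inl h) : EE SB)‖ = ‖h‖
    rw [norm_mk_of_free SB _ (fun i => rfl), norm_inl]

theorem lower (n : ℕ) (hn : 0 < n) : ∃ p ∈ closure (FRk PP : Set (PP →L[ℂ] PP)), ‖p‖ ≤ 1 ∧
    ∃ B : EuclideanSpace ℂ (Fin n) →ₗ[ℂ] PP, (∀ x, ‖B x‖ = ‖x‖) ∧
      ∀ x, p (B x) = (1 / n : ℂ) • B x := by
  -- the embedding of Euclidean space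
  let e : Fin n → L2 := fun j => lp.single 2 (j : ℕ) (1 : ℂ)
  have he : Orthonormal ℂ e := by
    rw [orthonormal_iff_ite]
    intro i j
    simp only [e]
    rw [lp.inner_single_left]
    by_cases h : i = j
    · subst h; simp
    · rw [if_neg h, lp.single_apply_ne]
      · simp
      · intro h'; exact h (Fin.ext h')
  let B0 : EuclideanSpace ℂ (Fin n) →ₗ[ℂ] L2 :=
    { toFun := fun x => ∑ j, x j • e j
      map_add' := fun x y => by simp [add_smul, Finset.sum_add_distrib]
      map_smul' := fun r x => by simp [Finset.smul_sum, smul_smul] }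
  have hB0 : ∀ x, B0 x = ∑ j, x j • e j := fun x => rfl
  have hB0n : ∀ x, ‖B0 x‖ = ‖x‖ := by
    intro x
    have h1 : ‖B0 x‖ ^ 2 = ‖x‖ ^ 2 := by
      rw [hB0, EuclideanSpace.norm_sq_eq]
      have h2 := Orthonormal.inner_sum he (fun j => x j) (fun j => x j) Finset.univ
      rw [@norm_sq_eq_re_inner ℂ, h2, map_sum]
      refine Finset.sum_congr rfl fun j _ => ?_
      rw [RCLike.conj_mul]
      norm_cast
    nlinarith [norm_nonneg (B0 x), norm_nonneg x, sq_nonneg (‖B0 x‖ - ‖x‖)]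
  have hcoord : ∀ (j : Fin n) (x), (B0 x : L2) (j : ℕ) = x j := by
    intro j x
    rw [hB0, lp.coeFn_sum, Finset.sum_apply, Finset.sum_eq_single j]
    · rw [lp.coeFn_smul, Pi.smul_apply]; simp [e]
    · intro b _ hb
      rw [lp.coeFn_smul, Pi.smul_apply]
      simp only [e]
      rw [lp.single_apply_ne, smul_zero]
      intro h'; exact hb (Fin.ext h').symm
    · intro h; exact absurd (Finset.mem_univ _) h
  -- the functionals
  have hf : ∀ j : ℕ, ∃ f : PP →L[ℂ] ℂ, ‖f‖ ≤ 1 ∧ ∀ h : L2, f (psi h) = h j := by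
    intro j
    let p : Submodule ℂ PP := LinearMap.range psi.toLinearMap
    let eqv : L2 ≃ₗᵢ[ℂ] p := psi.equivRange
    let c : L2 →L[ℂ] ℂ := LinearMap.mkContinuous
      { toFun := fun h => h j, map_add' := fun _ _ => rfl, map_smul' := fun _ _ => rfl } 1
      (fun h => by rw [one_mul]; exact lp.norm_apply_le_norm (by simp) h j)
    have hc : ‖c‖ ≤ 1 := LinearMap.mkContinuous_norm_le _ (by norm_num) _
    let f0 : p →L[ℂ] ℂ := c.comp (eqv.symm : p ≃L[ℂ] L2).toContinuousLinearMap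
    obtain ⟨f, hf1, hf2⟩ := exists_extension_norm_eq p f0
    refine ⟨f, ?_, fun h => ?_⟩
    · rw [hf2]
      refine (ContinuousLinearMap.opNorm_le_bound _ (by norm_num) fun x => ?_)
      show ‖c (eqv.symm x)‖ ≤ 1 * ‖x‖
      refine (c.le_opNorm _).trans ?_
      rw [LinearIsometryEquiv.norm_map]
      exact mul_le_mul_of_nonneg_right hc (norm_nonneg _)
    · have h1 := hf1 (eqv h)
      have h2 : ((eqv h : p) : PP) = psi h := rfl
      rw [← h2, h1]
      show c (eqv.symm (eqv h)) = h j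
      rw [LinearIsometryEquiv.symm_apply_apply]; rfl
  choose f hf1 hf2 using hf
  have hn' : (0 : ℝ) < n := by exact_mod_cast hn
  let B : EuclideanSpace ℂ (Fin n) →ₗ[ℂ] PP := psi.toLinearMap ∘ₗ B0
  have hB : ∀ x, B x = psi (B0 x) := fun x => rfl
  refine ⟨(1 / n : ℂ) • ∑ j : Fin n, (f j).smulRight (psi (e j)), ?_, ?_, B, ?_, ?_⟩
  · refine subset_closure ?_
    refine (FRk PP).smul_mem _ (Submodule.sum_mem _ fun j _ => ?_)
    exact Submodule.subset_span ⟨f j, psi (e j), rfl⟩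
  · refine ContinuousLinearMap.opNorm_le_bound _ (by norm_num) fun x => ?_
    have h0 : ((1 / n : ℂ) • ∑ j : Fin n, (f j).smulRight (psi (e j))) x =
        (1 / n : ℂ) • ∑ j : Fin n, f j x • psi (e j) := by
      simp [ContinuousLinearMap.smulRight_apply]
    rw [h0, norm_smul]
    have h1 : ‖∑ j : Fin n, f j x • psi (e j)‖ ≤ n * ‖x‖ := by
      refine (norm_sum_le_of_le (n := fun _ => ‖x‖) _ fun j _ => ?_).trans (by simp)
      rw [norm_smul, psi.norm_map]
      have : ‖e j‖ = 1 := he.1 j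
      rw [this, mul_one]
      exact ((f j).le_opNorm x).trans (mul_le_of_le_one_left (norm_nonneg _) (hf1 j))
    have h2 : ‖(1 / n : ℂ)‖ = 1 / n := by simp
    rw [h2]
    calc (1 / n : ℝ) * ‖∑ j : Fin n, f j x • psi (e j)‖ ≤ (1 / n : ℝ) * (n * ‖x‖) :=
          mul_le_mul_of_nonneg_left h1 (by positivity)
      _ = 1 * ‖x‖ := by field_simp
  · intro x
    rw [hB, psi.norm_map, hB0n]
  · intro x
    rw [smul_apply, sum_apply]
    congr 1
    have h1 : ∀ j : Fin n, ((f j).smulRight (psi (e j))) (B x) = psi (x j • e j) := by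
      intro j
      rw [ContinuousLinearMap.smulRight_apply, hB, hf2, hcoord, map_smul]
    rw [Finset.sum_congr rfl fun j _ => h1 j, ← map_sum]
    rfl

end W700.PS
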