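import Pool.Agent.W700.PS.Defs

/-!
The inductive construction: successive quotients of a Banach space with infinitely many free L1-blocks.
-/

set_option autoImplicit false
set_option linter.unusedSectionVars false

namespace W700.PS
open H601R3 Filter Topology

/-- The block `B k`. -/
abbrev Bk (k : ℕ) := (Fin k → Bool) → ℂ

/-- The `ℓ_1` norm of a block. -/
noncomputable def NB (k : ℕ) : Seminorm ℂ (Bk k) where
  toFun b := ∑ ω, ‖b ω‖
  map_zero' := by simp
  add_le' x y := by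
    rw [← Finset.sum_add_distrib]
    exact Finset.sum_le_sum fun ω _ => norm_add_le _ _
  neg' x := by simp
  smul' r x := by simp [Finset.mul_sum]

lemma NB_apply (k : ℕ) (b : Bk k) : NB k b = ∑ ω, ‖b ω‖ := rfl

/-- The embedding of Euclidean space into a block. -/
noncomputable def Jk (k : ℕ) : EuclideanSpace ℂ (Fin k) →ₗ[ℂ] Bk k where
  toFun a ω := (1000 * (cn (Fin k))⁻¹ : ℝ) • ∑ j, ((sg (ω j) : ℝ) : ℂ) * a j
  map_add' a b := by
    funext ω
    simp [mul_add, Finset.sum_add_distrib]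
  map_smul' r a := by
    funext ω
    simp only [PiLp.smul_apply, smul_eq_mul, RingHom.id_apply, Pi.smul_apply, Finset.mul_sum,
      Finset.smul_sum]
    refine Finset.sum_congr rfl fun j _ => ?_
    simp only [Complex.real_smul]; ring

lemma Jk_apply (k : ℕ) (a : EuclideanSpace ℂ (Fin k)) (ω : Fin k → Bool) :
    Jk k a ω = (1000 * (cn (Fin k))⁻¹ : ℝ) • ∑ j, ((sg (ω j) : ℝ) : ℂ) * a j := rfl

lemma NB_Jk (k : ℕ) (a : EuclideanSpace ℂ (Fin k)) :
    NB k (Jk k a) = 1000 * Ex (fun ε => ‖lev (fun j => a j) ε‖) := by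
  rw [NB_apply]
  unfold Ex lev
  rw [← mul_assoc, Finset.mul_sum]
  refine Finset.sum_congr rfl fun ω _ => ?_
  rw [Jk_apply, norm_smul, Real.norm_of_nonneg (by have := (cn_pos (I := Fin k)); positivity)]
  simp [Complex.real_smul]

lemma Jk_le (k : ℕ) (a : EuclideanSpace ℂ (Fin k)) : NB k (Jk k a) ≤ 1000 * ‖a‖ := by
  rw [NB_Jk]
  refine mul_le_mul_of_nonneg_left ?_ (by norm_num)
  refine (Ex_le_sqrt _).trans ?_
  rw [Ex_norm_lev (E := ℂ), EuclideanSpace.norm_eq]

lemma le_Jk (k : ℕ) (a : EuclideanSpace ℂ (Fin k)) : 500 * ‖a‖ ≤ NB k (Jk k a) := by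
  rw [NB_Jk]
  have h := hilbert_cot (E := ℂ) k (fun j => a j)
  rw [EuclideanSpace.norm_eq]
  simp only at h
  linarith

lemma cotNB (k : ℕ) : Cot (NB k) 2 := by
  intro n v
  have h1 : ∀ ω : Fin k → Bool, Real.sqrt (∑ i, ‖v i ω‖ ^ 2) ≤ 2 * Ex fun ε => ‖lev v ε ω‖ := by
    intro ω
    have := hilbert_cot (E := ℂ) n (fun i => v i ω)
    refine this.trans (le_of_eq ?_)
    congr 2; funext ε
    unfold lev; simp [Finset.sum_apply]
  have h2 : Real.sqrt (∑ i, (NB k (v i)) ^ 2) ≤ ∑ ω, Real.sqrt (∑ i, ‖v i ω‖ ^ 2) := by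
    have h3 : ∀ s : Finset (Fin k → Bool),
        Real.sqrt (∑ i, (∑ ω ∈ s, ‖v i ω‖) ^ 2) ≤ ∑ ω ∈ s, Real.sqrt (∑ i, ‖v i ω‖ ^ 2) := by
      intro s
      classical
      induction s using Finset.induction_on with
      | empty => simp
      | insert a s ha ih =>
        simp_rw [Finset.sum_insert ha]
        exact (sqrt_sum_add _ _).trans (by linarith)
    exact h3 Finset.univ
  refine h2.trans ((Finset.sum_le_sum fun ω _ => h1 ω).trans (le_of_eq ?_))
  rw [← Finset.mul_sum]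
  congr 1
  unfold Ex
  rw [← Finset.mul_sum, Finset.sum_comm]
  rfl

/-- A Banach space with infinitely many free blocks. -/
structure Blocks (V : Type) [NormedAddCommGroup V] [NormedSpace ℂ V] where
  β : ∀ k, V →ₗ[ℂ] Bk k
  ι : ∀ k, Bk k →ₗ[ℂ] V
  βι : ∀ k b, β k (ι k b) = b
  βι' : ∀ i k b, i ≠ k → β i (ι k b) = 0
  split : ∀ k v, ‖v‖ = ‖v - ι k (β k v)‖ + NB k (β k v)
  cot : Cot (fun v : V => ‖v‖) 1000
  D : ℕ → V
  dense : DenseRange D
  supp : ∀ m, ∃ K, ∀ i, K ≤ i → β i (D m) = 0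

/-- Enumeration of finite lists, each one infinitely often. -/
noncomputable def task (k : ℕ) : List ℕ := ((Encodable.decode (Nat.unpair k).1 : Option (List ℕ))).getD []

lemma task_spec (l : List ℕ) (K : ℕ) : ∃ k, K ≤ k ∧ task k = l := by
  refine ⟨Nat.pair (Encodable.encode l) K, Nat.right_le_pair _ _, ?_⟩
  unfold task
  rw [Nat.unpair_pair]
  simp

section
variable {V : Type} [NormedAddCommGroup V] [NormedSpace ℂ V] (S : Blocks V)

/-- the vectors of task `k` -/
noncomputable def wv (k : ℕ) (j : Fin k) : V :=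
  match (task k)[(j : ℕ)]? with
  | some m => (1 / 2 : ℂ) • S.D m
  | none => 0

/-- the map of task `k` -/
noncomputable def wm (k : ℕ) : EuclideanSpace ℂ (Fin k) →ₗ[ℂ] V where
  toFun a := ∑ j, a j • wv S k j
  map_add' a b := by simp [add_smul, Finset.sum_add_distrib]
  map_smul' r a := by simp [Finset.smul_sum, smul_smul]

lemma wm_apply (k : ℕ) (a : EuclideanSpace ℂ (Fin k)) : wm S k a = ∑ j, a j • wv S k j := rfl

/-- the task can be carried out at time `k` -/
def okk (k : ℕ) (N : Seminorm ℂ V) : Prop :=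
  (∀ (j : Fin k) (i : ℕ), k ≤ i → S.β i (wv S k j) = 0) ∧ ∀ a, N (wm S k a) ≤ ‖a‖

open Classical in
/-- the map used at time `k` -/
noncomputable def w' (k : ℕ) (N : Seminorm ℂ V) : EuclideanSpace ℂ (Fin k) →ₗ[ℂ] V :=
  if okk S k N then wm S k else 0

lemma w'_β (k : ℕ) (N : Seminorm ℂ V) (a) (i : ℕ) (hi : k ≤ i) : S.β i (w' S k N a) = 0 := by
  unfold w'
  split_ifs with h
  · rw [wm_apply, map_sum]
    refine Finset.sum_eq_zero fun j _ => ?_
    rw [map_smul, h.1 j i hi, smul_zero]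
  · simp

lemma w'_le (k : ℕ) (N : Seminorm ℂ V) (a) : N (w' S k N a) ≤ ‖a‖ := by
  unfold w'
  split_ifs with h
  · exact h.2 a
  · simp

/-- relations -/
noncomputable def Lk (k : ℕ) (N : Seminorm ℂ V) : EuclideanSpace ℂ (Fin k) →ₗ[ℂ] V :=
  w' S k N - S.ι k ∘ₗ Jk k

lemma Lk_apply (k : ℕ) (N : Seminorm ℂ V) (a) : Lk S k N a = w' S k N a - S.ι k (Jk k a) := rfl

/-- the successive quotient seminorms -/
noncomputable def Nk : ℕ → Seminorm ℂ V
  | 0 => normSeminorm ℂ V
  | k + 1 => quotSem (Nk k) (Lk S k (Nk k))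

lemma Nk_zero (v : V) : Nk S 0 v = ‖v‖ := rfl
lemma Nk_succ (k : ℕ) : Nk S (k + 1) = quotSem (Nk S k) (Lk S k (Nk S k)) := rfl

lemma Nk_succ_le (k : ℕ) (v : V) : Nk S (k + 1) v ≤ Nk S k v := by
  rw [Nk_succ]; exact quotSem_le_self _ _ _

lemma Nk_anti {j k : ℕ} (h : j ≤ k) (v : V) : Nk S k v ≤ Nk S j v := by
  induction h with
  | refl => exact le_rfl
  | step _ ih => exact (Nk_succ_le S _ v).trans ih

lemma Nk_le (k : ℕ) (v : V) : Nk S k v ≤ ‖v‖ := Nk_anti S (Nat.zero_le k) v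

lemma Nk_split (k : ℕ) : ∀ i, k ≤ i → ∀ v,
    Nk S k v = Nk S k (v - S.ι i (S.β i v)) + NB i (S.β i v) := by
  induction k with
  | zero => intro i _ v; exact S.split i v
  | succ k ih =>
    intro i hi v
    have hik : k ≤ i := by omega
    have hne : i ≠ k := by omega
    have hL : ∀ a, S.β i (Lk S k (Nk S k) a) = 0 := by
      intro a
      rw [Lk_apply, map_sub, w'_β S k _ a i hik, S.βι' i k _ hne, sub_zero]
    have key : ∀ a, Nk S k (v + Lk S k (Nk S k) a) =
        Nk S k (v - S.ι i (S.β i v) + Lk S k (Nk S k) a) + NB i (S.β i v) := by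
      intro a
      rw [ih i hik (v + _), map_add, hL, add_zero]
      congr 2; abel
    rw [Nk_succ]
    apply le_antisymm
    · refine le_of_forall_pos_le_add fun δ hδ => ?_
      obtain ⟨a, ha⟩ := exists_quotSem (Nk S k) (Lk S k (Nk S k)) (v - S.ι i (S.β i v)) hδ
      have := quotSem_le (Nk S k) (Lk S k (Nk S k)) v a
      rw [key] at this
      linarith
    · refine le_quotSem _ _ _ fun a => ?_
      rw [key]
      have := quotSem_le (Nk S k) (Lk S k (Nk S k)) (v - S.ι i (S.β i v)) a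
      linarith

lemma Nk_cot (k : ℕ) : Cot (Nk S k) 1000 := by
  induction k with
  | zero => exact S.cot
  | succ k ih =>
    rw [Nk_succ]
    exact step_cot (Nk S k) (NB k) (S.β k) (S.ι k) (S.βι k) (Nk_split S k k le_rfl)
      (w' S k (Nk S k)) (fun a => w'_β S k _ a k le_rfl) (w'_le S k (Nk S k)) (Jk k)
      (le_Jk k) (Jk_le k) (cotNB k) ih

lemma Nk_stable (k : ℕ) (v : V) (hv : S.β k v = 0) : Nk S (k + 1) v = Nk S k v := by
  refine le_antisymm (Nk_succ_le S k v) ?_
  rw [Nk_succ]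
  refine le_quotSem _ _ _ fun a => ?_
  have h1 := Nk_split S k k le_rfl (v + Lk S k (Nk S k) a)
  have h2 : S.β k (v + Lk S k (Nk S k) a) = - Jk k a := by
    rw [map_add, hv, Lk_apply, map_sub, w'_β S k _ a k le_rfl, S.βι]; simp
  have h3 : v + Lk S k (Nk S k) a - S.ι k (S.β k (v + Lk S k (Nk S k) a)) =
      v + w' S k (Nk S k) a := by
    rw [h2, Lk_apply, map_neg]; abel
  rw [h3, h2, map_neg_eq_map] at h1
  have h4 := le_Jk k a
  have h5 := w'_le S k (Nk S k) a
  have h6 : Nk S k v ≤ Nk S k (v + w' S k (Nk S k) a) + Nk S k (w' S k (Nk S k) a) := by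
    have : v = (v + w' S k (Nk S k) a) - w' S k (Nk S k) a := by abel
    conv_lhs => rw [this]
    exact map_sub_le_add _ _ _
  have h7 := norm_nonneg a
  linarith

lemma Nk_stable' (k : ℕ) (v : V) (hv : ∀ i, k ≤ i → S.β i v = 0) (j : ℕ) (hj : k ≤ j) :
    Nk S j v = Nk S k v := by
  induction hj with
  | refl => rfl
  | step hj ih => rw [Nk_stable S _ v (hv _ hj), ih]

/-- all relations -/
noncomputable def Rel : Submodule ℂ V := ⨆ k, LinearMap.range (Lk S k (Nk S k))

/-- the closed subspace of relations -/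
noncomputable def WW : Submodule ℂ V := (Rel S).topologicalClosure

lemma Lk_mem (k : ℕ) (a) : Lk S k (Nk S k) a ∈ WW S :=
  (Rel S).le_topologicalClosure
    (Submodule.mem_iSup_of_mem k (LinearMap.mem_range_self _ a))

lemma Nk_Lk (j k : ℕ) (h : k < j) (a) : Nk S j (Lk S k (Nk S k) a) = 0 := by
  refine le_antisymm ?_ (apply_nonneg _ _)
  refine (Nk_anti S h _).trans ?_
  rw [Nk_succ, quotSem_range]

lemma Rel_zero {v : V} (hv : v ∈ Rel S) : ∃ k, ∀ j, k ≤ j → Nk S j v = 0 := by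
  unfold Rel at hv
  induction hv using Submodule.iSup_induction' with
  | mem i x hx =>
    obtain ⟨a, rfl⟩ := hx
    exact ⟨i + 1, fun j hj => Nk_Lk S j i hj a⟩
  | zero => exact ⟨0, fun j _ => map_zero _⟩
  | add x y _ _ hx hy =>
    obtain ⟨k, hk⟩ := hx
    obtain ⟨l, hl⟩ := hy
    refine ⟨max k l, fun j hj => ?_⟩
    refine le_antisymm ?_ (apply_nonneg _ _)
    refine (map_add_le_add _ _ _).trans ?_
    rw [hk j (le_of_max_le_left hj), hl j (le_of_max_le_right hj), add_zero]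

/-- the quotient space -/
abbrev EE := V ⧸ WW S

lemma norm_mk_le_Nk (k : ℕ) : ∀ v : V, ‖(Submodule.Quotient.mk v : EE S)‖ ≤ Nk S k v := by
  induction k with
  | zero => intro v; exact Submodule.Quotient.norm_mk_le _ _
  | succ k ih =>
    intro v
    rw [Nk_succ]
    refine le_quotSem _ _ _ fun a => ?_
    have : (Submodule.Quotient.mk v : EE S) = Submodule.Quotient.mk (v + Lk S k (Nk S k) a) := by
      rw [Submodule.Quotient.eq]
      have : v - (v + Lk S k (Nk S k) a) = -(Lk S k (Nk S k) a) := by abel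
      rw [this]
      exact (WW S).neg_mem (Lk_mem S k a)
    rw [this]
    exact ih _

end

end W700.PS
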