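import Pool.Agent.W700.PS.Cons

set_option autoImplicit false
set_option linter.unusedSectionVars false

namespace W700.PS
open H601R3 Filter Topology

section
variable {V : Type} [NormedAddCommGroup V] [NormedSpace ℂ V] (S : Blocks V)

instance : IsClosed (WW S : Set V) := Submodule.isClosed_topologicalClosure _

lemma Nk_le_mk (v : V) {δ : ℝ} (hδ : 0 < δ) :
    ∃ k, ∀ j, k ≤ j → Nk S j v ≤ ‖(Submodule.Quotient.mk v : EE S)‖ + δ := by
  obtain ⟨m, hm, hm2⟩ := Submodule.Quotient.norm_mk_lt (S := WW S)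
    (Submodule.Quotient.mk v : EE S) (half_pos hδ)
  have h1 : m - v ∈ WW S := (Submodule.Quotient.eq _).1 hm
  have h2 : m - v ∈ closure (Rel S : Set V) := h1
  obtain ⟨w, hw, hw2⟩ := Metric.mem_closure_iff.1 h2 (δ / 2) (half_pos hδ)
  obtain ⟨k, hk⟩ := Rel_zero S hw
  refine ⟨k, fun j hj => ?_⟩
  have h3 : Nk S j v ≤ Nk S j (v + w) + Nk S j w := by
    have : v = (v + w) - w := by abel
    conv_lhs => rw [this]
    exact map_sub_le_add _ _ _
  rw [hk j hj, add_zero] at h3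
  have h4 := Nk_le S j (v + w)
  have h5 : ‖v + w‖ ≤ ‖m‖ + δ / 2 := by
    have : v + w = m - (m - v - w) := by abel
    rw [this]
    refine (norm_sub_le _ _).trans ?_
    rw [dist_eq_norm] at hw2
    linarith
  linarith

lemma Nk_eq_mk (k : ℕ) (v : V) (hv : ∀ i, k ≤ i → S.β i v = 0) :
    Nk S k v = ‖(Submodule.Quotient.mk v : EE S)‖ := by
  refine le_antisymm (le_of_forall_pos_le_add fun δ hδ => ?_) (norm_mk_le_Nk S k v)
  obtain ⟨l, hl⟩ := Nk_le_mk S v hδ
  have := hl (max k l) (le_max_right _ _)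
  rwa [Nk_stable' S k v hv _ (le_max_left _ _)] at this

lemma norm_mk_of_free (v : V) (hv : ∀ i, S.β i v = 0) :
    ‖(Submodule.Quotient.mk v : EE S)‖ = ‖v‖ := by
  rw [← Nk_eq_mk S 0 v (fun i _ => hv i), Nk_zero]

/-- the quotient map -/
noncomputable def qm : V →ₗ[ℂ] EE S := (WW S).mkQ

lemma qm_apply (v : V) : qm S v = (Submodule.Quotient.mk v : EE S) := rfl

theorem cotEE : Cot (fun x : EE S => ‖x‖) 1000 := by
  intro n x
  choose v hv using fun i => Submodule.Quotient.mk_surjective (WW S) (x i)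
  refine le_of_forall_pos_le_add fun δ hδ => ?_
  have hδ' : 0 < δ / 1000 := by positivity
  choose k hk using fun ε : Fin n → Bool => Nk_le_mk S (lev v ε) hδ'
  obtain ⟨K, hK⟩ : ∃ K, ∀ ε, k ε ≤ K := by
    refine ⟨Finset.univ.sup k, fun ε => Finset.le_sup (Finset.mem_univ ε)⟩
  have h1 := Nk_cot S K n v
  have h2 : Real.sqrt (∑ i, ‖x i‖ ^ 2) ≤ Real.sqrt (∑ i, (Nk S K (v i)) ^ 2) := by
    refine sqrt_sum_mono (fun i => norm_nonneg _) fun i => ?_
    rw [← hv i]
    exact norm_mk_le_Nk S K (v i)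
  have h3 : ∀ ε, Nk S K (lev v ε) ≤ ‖lev x ε‖ + δ / 1000 := by
    intro ε
    refine (hk ε K (hK ε)).trans (le_of_eq ?_)
    congr 2
    have := lev_map ((qm S).restrictScalars ℝ) v ε
    simp only [LinearMap.restrictScalars_apply, qm_apply] at this
    rw [this]
    simp only [hv]
  have h4 : (Ex fun ε => Nk S K (lev v ε)) ≤ (Ex fun ε => ‖lev x ε‖) + δ / 1000 := by
    have := Ex_mono h3
    rwa [Ex_add, Ex_const] at this
  show Real.sqrt (∑ i, ‖x i‖ ^ 2) ≤ 1000 * (Ex fun ε => ‖lev x ε‖) + δ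
  linarith

lemma qm_norm_le (v : V) : ‖qm S v‖ ≤ ‖v‖ := Submodule.Quotient.norm_mk_le _ _

lemma wv_lt (k : ℕ) (l : List ℕ) (hl : task k = l) (j : Fin k) (hj : (j : ℕ) < l.length) :
    wv S k j = (1 / 2 : ℂ) • S.D (l[(j : ℕ)]) := by
  unfold wv
  rw [hl, List.getElem?_eq_getElem hj]

lemma wv_ge (k : ℕ) (l : List ℕ) (hl : task k = l) (j : Fin k) (hj : l.length ≤ (j : ℕ)) :
    wv S k j = 0 := by
  unfold wv
  rw [hl, List.getElem?_eq_none hj]

lemma hat_block (k : ℕ) (i : Fin k) :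
    hat (fun ω : Fin k → Bool => qm S (S.ι k (Pi.single ω (1000 : ℂ)))) {i} =
      qm S (S.ι k (Jk k (EuclideanSpace.single i 1))) := by
  unfold hat
  have h1 : ∀ ω : Fin k → Bool, chi {i} ω • qm S (S.ι k (Pi.single ω (1000 : ℂ))) =
      qm S (S.ι k (((chi {i} ω : ℝ) : ℂ) • Pi.single ω (1000 : ℂ))) := by
    intro ω
    rw [map_smul, map_smul]; rfl
  simp_rw [h1]
  rw [← map_sum, ← map_sum]
  have h2 : ∀ (r : ℝ) (x : EE S), r • x = (r : ℂ) • x := fun r x => rfl
  rw [h2, ← map_smul, ← map_smul]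
  congr 2
  funext ω
  rw [Jk_apply, Pi.smul_apply, Finset.sum_apply]
  have h3 : ∑ c : Fin k → Bool, (((chi {i} c : ℝ) : ℂ) • (Pi.single c (1000 : ℂ) : Bk k)) ω =
      ((chi {i} ω : ℝ) : ℂ) * 1000 := by
    rw [Finset.sum_eq_single ω]
    · simp
    · intro b _ hb
      simp [Pi.single_eq_of_ne (Ne.symm hb)]
    · intro h; exact absurd (Finset.mem_univ _) h
  rw [h3]
  have h4 : ∑ j, ((sg (ω j) : ℝ) : ℂ) * (EuclideanSpace.single i (1 : ℂ) : EuclideanSpace ℂ (Fin k)) j
      = ((sg (ω i) : ℝ) : ℂ) := by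
    rw [Finset.sum_eq_single i]
    · simp
    · intro b _ hb; simp [hb]
    · intro h; exact absurd (Finset.mem_univ _) h
  rw [h4]
  simp only [chi_singleton, smul_eq_mul, Complex.real_smul]
  push_cast
  ring

theorem extEE : ExtP (EE S) 1000 := by
  intro n x hx δ hδ
  have hdense : DenseRange (fun m => qm S (S.D m)) := by
    have hs : Function.Surjective (qm S) := Submodule.mkQ_surjective _
    have hc : Continuous (qm S) := by
      have : LipschitzWith 1 (qm S) := by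
        refine LipschitzWith.of_dist_le_mul fun a b => ?_
        rw [dist_eq_norm, dist_eq_norm, ← map_sub]; simpa using qm_norm_le S (a - b)
      exact this.continuous
    exact hs.denseRange.comp S.dense hc
  obtain ⟨δ', hδ', hδ1, hδ2⟩ : ∃ δ' : ℝ, 0 < δ' ∧ δ' ≤ δ ∧ n * δ' ≤ 1 / 2 := by
    refine ⟨min δ (1 / (2 * (n + 1))), by positivity, min_le_left _ _, ?_⟩
    calc n * min δ (1 / (2 * (n + 1) : ℝ)) ≤ n * (1 / (2 * (n + 1))) :=
          mul_le_mul_of_nonneg_left (min_le_right _ _) (by positivity)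
      _ ≤ 1 / 2 := by
          rw [mul_one_div, div_le_div_iff₀ (by positivity) (by norm_num)]; linarith
  have hm : ∀ j, ∃ m, ‖x j - qm S (S.D m)‖ ≤ δ' := by
    intro j
    obtain ⟨_, ⟨m, rfl⟩, hm⟩ := Metric.mem_closure_iff.1 (hdense (x j)) δ' hδ'
    exact ⟨m, by rw [← dist_eq_norm]; exact hm.le⟩
  choose m hm using hm
  choose Kf hKf using S.supp
  obtain ⟨k, hk, hkt⟩ := task_spec (List.ofFn m) (max n (Finset.univ.sup fun j => Kf (m j)))
  have hnk : n ≤ k := le_trans (le_max_left _ _) hk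
  have hKk : ∀ j, Kf (m j) ≤ k := fun j =>
    (Finset.le_sup (f := fun j => Kf (m j)) (Finset.mem_univ j)).trans ((le_max_right _ _).trans hk)
  have hw1 : ∀ j : Fin n, wv S k (Fin.castLE hnk j) = (1 / 2 : ℂ) • S.D (m j) := by
    intro j
    rw [wv_lt S k _ hkt (Fin.castLE hnk j) (by simp)]
    simp
  have hw2 : ∀ j : Fin k, n ≤ (j : ℕ) → wv S k j = 0 := by
    intro j hj
    exact wv_ge S k _ hkt j (by simpa using hj)
  have hwm : ∀ a : EuclideanSpace ℂ (Fin k), wm S k a =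
      ∑ j : Fin n, (a (Fin.castLE hnk j) * (1 / 2 : ℂ)) • S.D (m j) := by
    intro a
    rw [wm_apply]
    have : ∑ j : Fin n, (a (Fin.castLE hnk j) * (1 / 2 : ℂ)) • S.D (m j) =
        ∑ j : Fin n, a (Fin.castLE hnk j) • wv S k (Fin.castLE hnk j) := by
      refine Finset.sum_congr rfl fun j _ => ?_
      rw [hw1, smul_smul]
    rw [this]
    symm
    have e1 : ∑ j : Fin n, a (Fin.castLE hnk j) • wv S k (Fin.castLE hnk j) =
        ∑ j ∈ Finset.univ.map (Fin.castLEEmb hnk), a j • wv S k j :=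
      (Finset.sum_map Finset.univ (Fin.castLEEmb hnk) (fun j => a j • wv S k j)).symm
    rw [e1]
    refine Finset.sum_subset (Finset.subset_univ _) fun j _ hj => ?_
    rw [hw2 j, smul_zero]
    by_contra hlt
    push Not at hlt
    apply hj
    rw [Finset.mem_map]
    exact ⟨⟨j, hlt⟩, Finset.mem_univ _, by ext; simp⟩
  have hβ : ∀ (j : Fin k) (i : ℕ), k ≤ i → S.β i (wv S k j) = 0 := by
    intro j i hi
    by_cases hj : (j : ℕ) < n
    · have : j = Fin.castLE hnk ⟨j, hj⟩ := by ext; simp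
      rw [this, hw1, map_smul, hKf _ i ((hKk _).trans hi), smul_zero]
    · rw [hw2 j (by omega), map_zero]
  have hsum : ∀ a : EuclideanSpace ℂ (Fin k),
      Real.sqrt (∑ j : Fin n, ‖a (Fin.castLE hnk j)‖ ^ 2) ≤ ‖a‖ := by
    intro a
    rw [EuclideanSpace.norm_eq]
    refine Real.sqrt_le_sqrt ?_
    have e1 : ∑ j : Fin n, ‖a (Fin.castLE hnk j)‖ ^ 2 =
        ∑ j ∈ Finset.univ.map (Fin.castLEEmb hnk), ‖a j‖ ^ 2 :=
      (Finset.sum_map Finset.univ (Fin.castLEEmb hnk) (fun j => ‖a j‖ ^ 2)).symm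
    rw [e1]
    exact Finset.sum_le_sum_of_subset_of_nonneg (Finset.subset_univ _) fun j _ _ => sq_nonneg _
  have hN : ∀ a, Nk S k (wm S k a) ≤ ‖a‖ := by
    intro a
    have h0 : ∀ i, k ≤ i → S.β i (wm S k a) = 0 := by
      intro i hi
      rw [wm_apply, map_sum]
      refine Finset.sum_eq_zero fun j _ => ?_
      rw [map_smul, hβ j i hi, smul_zero]
    rw [Nk_eq_mk S k _ h0, ← qm_apply, hwm, map_sum]
    set s : Fin n → ℂ := fun j => a (Fin.castLE hnk j) with hs
    have h1 : ∑ j : Fin n, qm S ((s j * (1 / 2 : ℂ)) • S.D (m j)) =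
        (1 / 2 : ℂ) • (∑ j, s j • x j - ∑ j, s j • (x j - qm S (S.D (m j)))) := by
      rw [← Finset.sum_sub_distrib, Finset.smul_sum]
      refine Finset.sum_congr rfl fun j _ => ?_
      rw [map_smul, ← smul_sub, sub_sub_cancel, smul_smul, mul_comm]
    rw [h1, norm_smul]
    have h2 := hx s
    have h3 : ‖∑ j, s j • (x j - qm S (S.D (m j)))‖ ≤ n * δ' * Real.sqrt (∑ j, ‖s j‖ ^ 2) := by
      calc ‖∑ j, s j • (x j - qm S (S.D (m j)))‖ ≤ ∑ j : Fin n, Real.sqrt (∑ j, ‖s j‖ ^ 2) * δ' := by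
            refine norm_sum_le_of_le _ fun j _ => ?_
            rw [norm_smul]
            refine mul_le_mul ?_ (hm j) (norm_nonneg _) (Real.sqrt_nonneg _)
            refine Real.le_sqrt_of_sq_le ?_
            exact Finset.single_le_sum (f := fun j => ‖s j‖ ^ 2) (fun j _ => sq_nonneg _)
              (Finset.mem_univ j)
        _ = _ := by simp; ring
    have h4 := hsum a
    have h5 : 0 ≤ Real.sqrt (∑ j, ‖s j‖ ^ 2) := Real.sqrt_nonneg _
    have h6 : ‖∑ j, s j • x j - ∑ j, s j • (x j - qm S (S.D (m j)))‖ ≤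
        2 * Real.sqrt (∑ j, ‖s j‖ ^ 2) := by
      refine (norm_sub_le _ _).trans ?_
      nlinarith
    have h7 : ‖(1 / 2 : ℂ)‖ = 1 / 2 := by simp
    rw [h7]
    have h8 : Real.sqrt (∑ j, ‖s j‖ ^ 2) ≤ ‖a‖ := h4
    linarith
  have hok : okk S k (Nk S k) := ⟨hβ, hN⟩
  have hw' : w' S k (Nk S k) = wm S k := by unfold w'; rw [if_pos hok]
  refine ⟨k, hnk, fun ω => qm S (S.ι k (Pi.single ω (1000 : ℂ))), fun ω => ?_, fun j => ?_⟩
  · refine (qm_norm_le S _).trans ?_
    have h1 := S.split k (S.ι k (Pi.single ω (1000 : ℂ)))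
    rw [S.βι, sub_self, norm_zero, zero_add] at h1
    rw [h1, NB_apply, Finset.sum_eq_single ω]
    · simp
    · intro b _ hb; simp [hb]
    · intro h; exact absurd (Finset.mem_univ _) h
  · rw [hat_block]
    have h1 : qm S (S.ι k (Jk k (EuclideanSpace.single (Fin.castLE hnk j) 1))) =
        qm S (wm S k (EuclideanSpace.single (Fin.castLE hnk j) 1)) := by
      have h2 := Lk_mem S k (EuclideanSpace.single (Fin.castLE hnk j) (1 : ℂ))
      rw [Lk_apply, hw'] at h2
      exact ((Submodule.Quotient.eq (WW S)).2 h2).symm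
    rw [h1, wm_apply, Finset.sum_eq_single (Fin.castLE hnk j)]
    · rw [hw1]
      have : (EuclideanSpace.single (Fin.castLE hnk j) (1 : ℂ) : EuclideanSpace ℂ (Fin k))
          (Fin.castLE hnk j) = 1 := by simp
      rw [this, one_smul, map_smul, ← smul_sub, norm_smul, norm_sub_rev]
      have h7 : ‖(1 / 2 : ℂ)‖ = 1 / 2 := by simp
      rw [h7]
      have := hm j
      linarith
    · intro b _ hb
      have : (EuclideanSpace.single (Fin.castLE hnk j) (1 : ℂ) : EuclideanSpace ℂ (Fin k)) b = 0 := by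
        simp [hb]
      rw [this, zero_smul]
    · intro h; exact absurd (Finset.mem_univ _) h

end

end W700.PS
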