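import Pool.Agent.H601R3.Step

/-!
Definitions and intermediate statements for MP_d957af_an: a Banach space `E` for which the algebra of
approximable operators is not spanned by products.
-/

set_option autoImplicit false

namespace W700.PS
open H601R3

section
variable {E : Type} [NormedAddCommGroup E] [NormedSpace ℂ E]

/-- `a` is 2-summing with constant at most `C`. -/
def PiB (C : ℝ) (a : E →L[ℂ] E) : Prop :=
  ∀ (n : ℕ) (x : Fin n → E),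
    (∀ t : Fin n → ℂ, ‖∑ j, t j • x j‖ ≤ Real.sqrt (∑ j, ‖t j‖ ^ 2)) →
      Real.sqrt (∑ j, ‖a (x j)‖ ^ 2) ≤ C

/-- The `k`-th Weyl type number of `a` is at most `δ`: for every contraction `B` from a Euclidean space
there is a subspace of codimension at most `k` on which `a ∘ B` has norm at most `δ`. -/
def Sn (k : ℕ) (δ : ℝ) (a : E →L[ℂ] E) : Prop :=
  ∀ (H : Type) [NormedAddCommGroup H] [InnerProductSpace ℂ H] [FiniteDimensional ℂ H]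
    (B : H →ₗ[ℂ] E), (∀ x, ‖B x‖ ≤ ‖x‖) →
    ∃ V : Submodule ℂ H, Module.finrank ℂ H ≤ Module.finrank ℂ V + k ∧
      ∀ x ∈ V, ‖a (B x)‖ ≤ δ * ‖x‖

/-- Uniform decomposition of the unit ball of `A` into sums of `m` products, up to closure. -/
def UD (A : Submodule ℂ (E →L[ℂ] E)) (m : ℕ) (M : ℝ) : Prop :=
  ∀ u ∈ A, ‖u‖ ≤ 1 → ∀ ε > 0, ∃ a b : Fin m → (E →L[ℂ] E),
    (∀ i, a i ∈ A ∧ b i ∈ A ∧ ‖a i‖ ≤ M ∧ ‖b i‖ ≤ M) ∧ ‖u - ∑ i, (a i).comp (b i)‖ ≤ ε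

/-- The finite rank operators, as the span of the rank one operators. -/
def FRk (E : Type) [NormedAddCommGroup E] [NormedSpace ℂ E] : Submodule ℂ (E →L[ℂ] E) :=
  Submodule.span ℂ {w | ∃ (f : E →L[ℂ] ℂ) (x : E), w = f.smulRight x}

/-- The Rademacher extension property, approximate form. -/
def ExtP (E : Type) [NormedAddCommGroup E] [NormedSpace ℂ E] (C : ℝ) : Prop :=
  ∀ (n : ℕ) (x : Fin n → E),
    (∀ t : Fin n → ℂ, ‖∑ j, t j • x j‖ ≤ Real.sqrt (∑ j, ‖t j‖ ^ 2)) → ∀ δ > 0,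
    ∃ (N : ℕ) (hN : n ≤ N) (b : (Fin N → Bool) → E),
      (∀ ω, ‖b ω‖ ≤ C) ∧ ∀ j : Fin n, ‖hat b {Fin.castLE hN j} - (1 / 2 : ℂ) • x j‖ ≤ δ

end

/-- T1 (Baire category). -/
def S_T1 : Prop :=
  ∀ (E : Type) [NormedAddCommGroup E] [NormedSpace ℂ E] [CompleteSpace E]
    (A : Submodule ℂ (E →L[ℂ] E)), IsClosed (A : Set (E →L[ℂ] E)) →
    (∀ u ∈ A, u ∈ Submodule.span ℂ {w | ∃ a ∈ A, ∃ b ∈ A, w = a.comp b}) →
    ∃ (m : ℕ) (M : ℝ), 0 < m ∧ 0 < M ∧ UD A m M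

/-- T2a: 2-summing operators have decaying Weyl numbers. -/
def S_T2a : Prop :=
  ∀ (E : Type) [NormedAddCommGroup E] [NormedSpace ℂ E] (a : E →L[ℂ] E) (C : ℝ), 0 ≤ C → PiB C a →
    ∀ k : ℕ, Sn k (C / Real.sqrt (k + 1)) a

/-- T2b: products. -/
def S_T2b : Prop :=
  ∀ (E : Type) [NormedAddCommGroup E] [NormedSpace ℂ E] (a b : E →L[ℂ] E) (k l : ℕ) (δ δ' : ℝ),
    0 ≤ δ → 0 ≤ δ' → Sn k δ a → Sn l δ' b → Sn (k + l) (δ * δ') (a.comp b)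

/-- T2c: sums. -/
def S_T2c : Prop :=
  ∀ (E : Type) [NormedAddCommGroup E] [NormedSpace ℂ E] (a b : E →L[ℂ] E) (k l : ℕ) (δ δ' : ℝ),
    Sn k δ a → Sn l δ' b → Sn (k + l) (δ + δ') (a + b)

/-- T2d: the contradiction by doubling, from T2a, T2b, T2c. -/
def S_T2d : Prop :=
  ∀ (E : Type) [NormedAddCommGroup E] [NormedSpace ℂ E] (A : Submodule ℂ (E →L[ℂ] E)) (C : ℝ),
    0 < C → (∀ a ∈ A, PiB (C * ‖a‖) a) →
    (∀ n : ℕ, 0 < n → ∃ p ∈ A, ‖p‖ ≤ 1 ∧ ∃ B : EuclideanSpace ℂ (Fin n) →ₗ[ℂ] E,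
      (∀ x, ‖B x‖ = ‖x‖) ∧ ∀ x, p (B x) = (1 / n : ℂ) • B x) →
    ∀ (m : ℕ) (M : ℝ), 0 < m → 0 < M → ¬ UD A m M

/-- T3: cotype two and the extension property bound the 2-summing norm of approximable operators. -/
def S_T3 : Prop :=
  ∀ (E : Type) [NormedAddCommGroup E] [NormedSpace ℂ E],
    Cot (fun x : E => ‖x‖) 1000 → ExtP E 1000 →
    ∃ C > 0, ∀ a ∈ closure (FRk E : Set (E →L[ℂ] E)), PiB (C * ‖a‖) a

end W700.PS
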